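import Mathlib

/-!
# Base change to function fields: field theory (not a result)
-/

set_option autoImplicit false
set_option linter.unusedSectionVars false

open Polynomial
open scoped nonZeroDivisors

namespace Pool.Agent.Helper88.BL

/-- irreducible polynomials over an algebraically closed subfield stay irreducible -/
theorem irreducible_map {k K : Type} [Field k] [Field K] [Algebra k K]
    (hr : ∀ x : K, IsAlgebraic k x → x ∈ (algebraMap k K).range) {p : k[X]} (hp : p.Monic)
    (hi : Irreducible p) : Irreducible (p.map (algebraMap k K)) := by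
  have hpK : (p.map (algebraMap k K)).Monic := hp.map _
  have hlift : ∀ g : K[X], g.Monic → g ∣ p.map (algebraMap k K) →
      ∃ g0 : k[X], g0.Monic ∧ g0.map (algebraMap k K) = g := by
    intro g hg hd
    have h1 := integralClosure.mem_lifts_of_monic_of_dvd_map K hp hg hd
    have h2 : g ∈ lifts (algebraMap k K) := by
      rw [lifts_iff_coeff_lifts] at h1 ⊢
      intro n
      obtain ⟨y, hy⟩ := h1 n
      obtain ⟨c, hc⟩ := hr (g.coeff n) (by
        rw [← hy]
        exact (IsIntegral.isAlgebraic y.2))
      exact ⟨c, hc⟩
    obtain ⟨g0, hg0, -, hm⟩ := lifts_and_natDegree_eq_and_monic h2 hg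
    exact ⟨g0, hm, hg0⟩
  refine hpK.irreducible_iff_natDegree.2 ⟨?_, ?_⟩
  · intro h
    have h1 : p.natDegree = 0 := by
      have h2 := congrArg natDegree h
      rwa [hp.natDegree_map, natDegree_one] at h2
    exact hi.not_isUnit (by rw [eq_one_of_monic_natDegree_zero hp h1]; exact isUnit_one)
  · intro f g hf hg hfg
    obtain ⟨f0, hf0, rfl⟩ := hlift f hf ⟨g, hfg.symm⟩
    obtain ⟨g0, hg0, rfl⟩ := hlift g hg ⟨f0.map (algebraMap k K), by rw [mul_comm]; exact hfg.symm⟩
    rw [← Polynomial.map_mul] at hfg
    have h1 : f0 * g0 = p := Polynomial.map_injective _ (algebraMap k K).injective hfg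
    rw [hf0.natDegree_map, hg0.natDegree_map]
    exact ((hp.irreducible_iff_natDegree).1 hi).2 f0 g0 hf0 hg0 h1

/-- elements of a finitely generated extension which are algebraic have bounded degree -/
theorem degree_bound {A L : Type} [Field A] [CharZero A] [Field L] [Algebra A L]
    (h : Algebra.EssFiniteType A L) :
    ∃ D : ℕ, ∀ y : L, IsAlgebraic A y → (minpoly A y).natDegree ≤ D := by
  classical
  obtain ⟨s, hs⟩ := exists_finset_isTranscendenceBasis A L
  let R := MvPolynomial s A
  let _ : Algebra R L := ((MvPolynomial.aeval (Subtype.val : s → L)) : R →ₐ[A] L).toRingHom.toAlgebra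
  have hRL : ∀ p : R, algebraMap R L p = MvPolynomial.aeval (Subtype.val : s → L) p := fun p => rfl
  have tow : IsScalarTower A R L := IsScalarTower.of_algebraMap_eq fun a => by
    rw [hRL]
    exact ((MvPolynomial.aeval (Subtype.val : s → L)).commutes a).symm
  have hinj : Function.Injective (algebraMap R L) := hs.1
  let E0 := FractionRing R
  let _ : Algebra E0 L := (IsFractionRing.lift hinj).toAlgebra
  have tow1 : IsScalarTower R E0 L := IsScalarTower.of_algebraMap_eq fun p =>
    (IsFractionRing.lift_algebraMap hinj p).symm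
  have tow2 : IsScalarTower A E0 L := IsScalarTower.of_algebraMap_eq fun a => by
    rw [IsScalarTower.algebraMap_apply A R E0, ← IsScalarTower.algebraMap_apply R E0 L,
      ← IsScalarTower.algebraMap_apply A R L]
  have hess : Algebra.EssFiniteType E0 L := Algebra.EssFiniteType.of_comp A E0 L
  have hfs : FaithfulSMul R L := (faithfulSMul_iff_algebraMap_injective R L).2 hinj
  have hgen : ∀ z ∈ Algebra.adjoin A (Set.range (Subtype.val : s → L)),
      z ∈ Set.range (algebraMap R L) := by
    intro z hz
    rw [Algebra.adjoin_range_eq_range_aeval] at hz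
    exact hz
  have halg : Algebra.IsAlgebraic E0 L := by
    refine ⟨fun z => ?_⟩
    rw [← IsFractionRing.isAlgebraic_iff R E0 L]
    obtain ⟨p, hp0, hp⟩ := hs.isAlgebraic.isAlgebraic z
    have h1 : p.map (algebraMap _ L) ∈ lifts (algebraMap R L) := by
      rw [lifts_iff_coeff_lifts]
      intro n
      rw [coeff_map]
      exact hgen _ (p.coeff n).2
    obtain ⟨q, hq⟩ := h1
    have hq' : q.map (algebraMap R L) = p.map (algebraMap _ L) := hq
    refine ⟨q, ?_, ?_⟩
    · rintro rfl
      rw [Polynomial.map_zero] at hq'
      exact hp0 ((Polynomial.map_eq_zero_iff Subtype.val_injective).1 hq'.symm)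
    · rw [aeval_def, ← eval_map, hq', eval_map]
      exact hp
  have hfin : FiniteDimensional E0 L := Algebra.finite_of_essFiniteType_of_isAlgebraic
  refine ⟨Module.finrank E0 L, fun y hy => ?_⟩
  let N : IntermediateField A L := algebraicClosure A L
  have hN : Algebra.IsAlgebraic A N := algebraicClosure.isAlgebraic A L
  have hind : AlgebraicIndependent N (Subtype.val : s → L) :=
    (Algebra.IsAlgebraic.algebraicIndependent_iff A N).1 hs.1
  have hyN : y ∈ N := mem_algebraicClosure_iff.2 hy
  have hli : LinearIndependent E0 (fun i : Fin (minpoly A y).natDegree => y ^ (i : ℕ)) := by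
    rw [← LinearIndependent.iff_fractionRing R E0, linearIndependent_iff']
    intro t p hp i hi
    have hP : ∑ j ∈ t, MvPolynomial.C ((⟨y, hyN⟩ : N) ^ (j : ℕ)) *
        MvPolynomial.map (algebraMap A N) (p j) = 0 := by
      apply hind
      rw [map_zero, map_sum, ← hp]
      refine Finset.sum_congr rfl fun j _ => ?_
      rw [map_mul, MvPolynomial.aeval_C, MvPolynomial.aeval_map_algebraMap, Algebra.smul_def, hRL,
        mul_comm]
      rfl
    ext m
    rw [MvPolynomial.coeff_zero]
    have h1 := congrArg (fun P : MvPolynomial s N => (algebraMap N L) (P.coeff m)) hP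
    simp only [MvPolynomial.coeff_sum, MvPolynomial.coeff_C_mul, MvPolynomial.coeff_map,
      MvPolynomial.coeff_zero, map_sum, map_mul, map_zero] at h1
    have h2 : ∑ j ∈ t, (p j).coeff m • y ^ (j : ℕ) = 0 := by
      rw [← h1]
      refine Finset.sum_congr rfl fun j _ => ?_
      rw [Algebra.smul_def, mul_comm]
      rfl
    exact linearIndependent_iff'.1 (linearIndependent_pow y) t _ h2 i hi
  have := hli.fintype_card_le_finrank
  rwa [Fintype.card_fin] at this

end Pool.Agent.Helper88.BL
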