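import Pool.Agent.Helper88.FT.Final

/-!
# Sections of quotients of the absolute Galois group of a function field: definitions (not a result)
-/

set_option autoImplicit false

namespace Pool.Agent.Helper88.BL

open Pool.Agent.Helper88.FT.Final

/-- Let `F` be an extension of `k`, `Ω` an algebraically closed field over `F`, `kbar` the algebraic
closure of `k` in `Ω` and `F'` an extension of `F` in `Ω`. A section of the restriction map
`Gal(F'/F) → Gal(kbar/k)`: a continuous homomorphism `hom` such that `hom g` is `g` on `kbar`. -/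
structure PartialSection (k F Ω : Type) [Field k] [Field F] [Field Ω] [Algebra k Ω] [Algebra F Ω]
    (F' : IntermediateField F Ω) where
  /-- the homomorphism -/
  hom : (algebraicClosure k Ω ≃ₐ[k] algebraicClosure k Ω) →* (F' ≃ₐ[F] F')
  cont : Continuous hom
  sec : ∀ (g : algebraicClosure k Ω ≃ₐ[k] algebraicClosure k Ω) (x : algebraicClosure k Ω)
    (hx : (x : Ω) ∈ F'), ((hom g ⟨x, hx⟩ : F') : Ω) = ((g x : algebraicClosure k Ω) : Ω)

/-- The section arises from the rational point with the valuation ring `O`: `O` is a nontrivial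
valuation ring of `F` over `k` with residue field `k`, and the automorphisms `hom g` map some valuation
ring `W` of `F'` above `O` to itself (`hom g` is in the decomposition group of `W`). -/
def PartialSection.ArisesFrom {k F Ω : Type} [Field k] [Field F] [Field Ω] [Algebra k Ω]
    [Algebra F Ω] [Algebra k F] {F' : IntermediateField F Ω} (s : PartialSection k F Ω F')
    (O : ValuationSubring F) : Prop :=
  O ≠ ⊤ ∧ (∀ c : k, algebraMap k F c ∈ O) ∧
    (∀ a ∈ O, ∃ c : k, O.valuation (a - algebraMap k F c) < 1) ∧
    ∃ W : ValuationSubring F', W.comap (algebraMap F F') = O ∧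
      ∀ (g : algebraicClosure k Ω ≃ₐ[k] algebraicClosure k Ω) (x : F'), (s.hom g x ∈ W ↔ x ∈ W)

/-- Let `k ⊆ K` and `F ⊆ E`, `kbar` and `Kbar` the algebraic closures of `k` and `K` in `Ω`. The section
`s'` of `Gal(Ω/E) → Gal(Kbar/K)` lifts the base change to `K` of the section `s` of
`Gal(F'/F) → Gal(kbar/k)`: if the restriction of `g` in `Gal(Kbar/K)` to `kbar` is `g0`, then the
restriction of `s' g` to `F'` is `s g0`. -/
def Lifts {k K F E Ω : Type} [Field k] [Field K] [Field F] [Field E] [Field Ω] [Algebra k Ω]
    [Algebra K Ω] [Algebra F Ω] [Algebra E Ω] {F' : IntermediateField F Ω}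
    (s' : GaloisSection K E Ω) (s : PartialSection k F Ω F') : Prop :=
  ∀ (g : algebraicClosure K Ω ≃ₐ[K] algebraicClosure K Ω)
    (g0 : algebraicClosure k Ω ≃ₐ[k] algebraicClosure k Ω),
    (∀ (x : algebraicClosure k Ω) (y : algebraicClosure K Ω), (y : Ω) = (x : Ω) →
      ((g y : algebraicClosure K Ω) : Ω) = ((g0 x : algebraicClosure k Ω) : Ω)) →
    ∀ x : F', s'.hom g (x : Ω) = ((s.hom g0 x : F') : Ω)

end Pool.Agent.Helper88.BL
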