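import Pool.Agent.Helper88.BL.Alg

/-!
# Extension of automorphisms to a regular extension (not a result)
-/

set_option autoImplicit false
set_option linter.unusedSectionVars false

open Polynomial

namespace Pool.Agent.Helper88.BL

section

variable {k K Ω : Type} [Field k] [Field K] [Field Ω] [Algebra k K] [Algebra K Ω] [Algebra k Ω]
  [IsScalarTower k K Ω]

variable (K) in
/-- the inclusion of the algebraic closures -/
def inc (x : algebraicClosure k Ω) : algebraicClosure K Ω :=
  ⟨(x : Ω), mem_algebraicClosure_iff.2 ((mem_algebraicClosure_iff.1 x.2).tower_top K)⟩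

theorem coe_inc (x : algebraicClosure k Ω) : ((inc K x : algebraicClosure K Ω) : Ω) = x := rfl

/-- `inc` as a homomorphism -/
def incHom (k K Ω : Type) [Field k] [Field K] [Field Ω] [Algebra k K] [Algebra K Ω] [Algebra k Ω]
    [IsScalarTower k K Ω] : algebraicClosure k Ω →ₐ[k] algebraicClosure K Ω where
  toFun := inc K
  map_one' := rfl
  map_mul' _ _ := rfl
  map_zero' := rfl
  map_add' _ _ := rfl
  commutes' a := by
    have tow : IsScalarTower k (algebraicClosure K Ω) Ω :=
      IsScalarTower.of_algebraMap_eq fun _ => rfl
    apply Subtype.ext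
    exact (IsScalarTower.algebraMap_apply k (algebraicClosure k Ω) Ω a).symm.trans
      (IsScalarTower.algebraMap_apply k (algebraicClosure K Ω) Ω a)

variable [CharZero k]

theorem exists_single [IsAlgClosed Ω] (hr : ∀ x : K, IsAlgebraic k x → x ∈ (algebraMap k K).range)
    (g : algebraicClosure k Ω ≃ₐ[k] algebraicClosure k Ω) (β : algebraicClosure k Ω) :
    ∃ h : algebraicClosure K Ω ≃ₐ[K] algebraicClosure K Ω, h (inc K β) = inc K (g β) := by
  have hch : CharZero K := charZero_of_injective_algebraMap (algebraMap k K).injective
  have hβ : IsIntegral k β := (Algebra.IsAlgebraic.isAlgebraic β).isIntegral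
  have hcl : IsAlgClosure K (algebraicClosure K Ω) := inferInstance
  have hn : Normal K (algebraicClosure K Ω) := IsAlgClosure.normal K _
  have hroot : ∀ γ : algebraicClosure k Ω, aeval γ (minpoly k β) = 0 →
      aeval (inc K γ) ((minpoly k β).map (algebraMap k K)) = 0 := by
    intro γ h
    rw [aeval_map_algebraMap]
    change aeval (incHom k K Ω γ) (minpoly k β) = 0
    rw [aeval_algHom_apply, h, map_zero]
  have hm : (minpoly k β).map (algebraMap k K) = minpoly K (inc K β) :=
    minpoly.eq_of_irreducible_of_monic
      (irreducible_map hr (minpoly.monic hβ) (minpoly.irreducible hβ))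
      (hroot β (minpoly.aeval k β)) ((minpoly.monic hβ).map _)
  refine minpoly.exists_algEquiv_of_root' (Algebra.IsAlgebraic.isAlgebraic _) ?_
  rw [← hm]
  apply hroot
  change aeval ((g : algebraicClosure k Ω →ₐ[k] algebraicClosure k Ω) β) _ = 0
  rw [aeval_algHom_apply, minpoly.aeval, map_zero]

/-- surjectivity of the restriction of Galois groups -/
theorem exists_ext [IsAlgClosed Ω] (hr : ∀ x : K, IsAlgebraic k x → x ∈ (algebraMap k K).range)
    (g : algebraicClosure k Ω ≃ₐ[k] algebraicClosure k Ω) :
    ∃ h : algebraicClosure K Ω ≃ₐ[K] algebraicClosure K Ω,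
      ∀ x : algebraicClosure k Ω, h (inc K x) = inc K (g x) := by
  have hch : CharZero K := charZero_of_injective_algebraMap (algebraMap k K).injective
  have hcl : IsAlgClosure K (algebraicClosure K Ω) := inferInstance
  have hgal : IsGalois K (algebraicClosure K Ω) := IsAlgClosure.isGalois K _
  let Z : algebraicClosure k Ω → Set (algebraicClosure K Ω ≃ₐ[K] algebraicClosure K Ω) :=
    fun β => {h | h (inc K β) = inc K (g β)}
  have hZc : ∀ β, IsClosed (Z β) := by
    intro β
    obtain ⟨h0, hh0⟩ := exists_single hr g β
    have hfin : FiniteDimensional K (IntermediateField.adjoin K {inc K β}) :=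
      IntermediateField.adjoin.finiteDimensional (Algebra.IsAlgebraic.isAlgebraic _).isIntegral
    have h1 : Z β = (fun h => h0⁻¹ * h) ⁻¹'
        ((IntermediateField.adjoin K {inc K β}).fixingSubgroup :
          Set (algebraicClosure K Ω ≃ₐ[K] algebraicClosure K Ω)) := by
      ext h
      rw [Set.mem_preimage, SetLike.mem_coe, IntermediateField.mem_fixingSubgroup_iff]
      constructor
      · intro h2 x hx
        have h3 : (h0⁻¹ * h) (inc K β) = inc K β := by
          change h0.symm (h (inc K β)) = _
          rw [AlgEquiv.symm_apply_eq, hh0]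
          exact h2
        have h4 : IntermediateField.adjoin K {inc K β} ≤
            IntermediateField.fixedField (Subgroup.zpowers (h0⁻¹ * h)) := by
          rw [IntermediateField.adjoin_simple_le_iff, IntermediateField.mem_fixedField_iff]
          rintro f ⟨n, rfl⟩
          change ((h0⁻¹ * h) ^ n) • (inc K β) = inc K β
          exact (MulAction.stabilizer (algebraicClosure K Ω ≃ₐ[K] algebraicClosure K Ω)
            (inc K β)).zpow_mem (x := h0⁻¹ * h) h3 n
        have h5 := (IntermediateField.mem_fixedField_iff _ _).1 (h4 hx) _
          (Subgroup.mem_zpowers (h0⁻¹ * h))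
        exact h5
      · intro h2
        have h3 : (h0⁻¹ * h) (inc K β) = inc K β :=
          h2 _ (IntermediateField.mem_adjoin_simple_self K _)
        have h4 : h0.symm (h (inc K β)) = inc K β := h3
        rw [AlgEquiv.symm_apply_eq, hh0] at h4
        exact h4
    rw [h1]
    exact (IntermediateField.fixingSubgroup_isClosed _).preimage (continuous_const_mul _)
  have hne : (⋂ β, Z β).Nonempty := by
    refine IsCompact.nonempty_iInter_of_directed_nonempty_isCompact_isClosed Z ?_ ?_
      (fun β => (hZc β).isCompact) hZc
    · intro β1 β2
      have hfin : FiniteDimensional k (IntermediateField.adjoin k {β1, β2}) :=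
        IntermediateField.finiteDimensional_adjoin
          (fun x _ => (Algebra.IsAlgebraic.isAlgebraic (R := k) x).isIntegral)
      obtain ⟨γ, hγ⟩ := Field.exists_primitive_element k (IntermediateField.adjoin k {β1, β2})
      refine ⟨γ, ?_⟩
      have key : ∀ h ∈ Z γ, ∀ x ∈ IntermediateField.adjoin k {β1, β2},
          h (inc K x) = inc K (g x) := by
        intro h hh x hx
        have e1 : (⟨x, hx⟩ : IntermediateField.adjoin k {β1, β2}) ∈
            IntermediateField.adjoin k {γ} := by rw [hγ]; exact IntermediateField.mem_top
        have hγ' : IsAlgebraic k γ := Algebra.IsAlgebraic.isAlgebraic _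
        rw [← IntermediateField.mem_toSubalgebra,
          IntermediateField.adjoin_simple_toSubalgebra_of_isAlgebraic hγ',
          Algebra.adjoin_singleton_eq_range_aeval] at e1
        obtain ⟨p, hp⟩ := e1
        have hp' : aeval (γ : algebraicClosure k Ω) p = x := by
          have := congrArg (IntermediateField.val _) hp
          change (IntermediateField.val _) (aeval γ p) = x at this
          rw [← aeval_algHom_apply] at this
          exact this
        let h' : algebraicClosure K Ω →ₐ[k] algebraicClosure K Ω :=
          (h : algebraicClosure K Ω →ₐ[K] algebraicClosure K Ω).restrictScalars k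
        have e2 : h' (incHom k K Ω x) = incHom k K Ω (g x) := by
          rw [← hp']
          have e3 : g (aeval (γ : algebraicClosure k Ω) p) =
              aeval (g (γ : algebraicClosure k Ω)) p := by
            change (g : algebraicClosure k Ω →ₐ[k] algebraicClosure k Ω) _ = _
            rw [← aeval_algHom_apply]
            rfl
          have e4 : h' ((incHom k K Ω) (γ : algebraicClosure k Ω)) =
              (incHom k K Ω) (g (γ : algebraicClosure k Ω)) := hh
          rw [e3, ← aeval_algHom_apply, ← aeval_algHom_apply, ← aeval_algHom_apply, e4]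
        exact e2
      exact ⟨fun h hh => key h hh _ (IntermediateField.subset_adjoin _ _ (by simp)),
        fun h hh => key h hh _ (IntermediateField.subset_adjoin _ _ (by simp))⟩
    · exact fun β => exists_single hr g β
  obtain ⟨h, hh⟩ := hne
  exact ⟨h, fun x => Set.mem_iInter.1 hh x⟩

end

end Pool.Agent.Helper88.BL
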