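import Pool.Agent.Helper88.BL.Main

/-!
# The valuation ring does not contain `F` (not a result)
-/

set_option autoImplicit false
set_option linter.unusedSectionVars false

open Polynomial

namespace Pool.Agent.Helper88.BL

open Pool.Agent.Helper88.FT.Final

section

variable {k K F E Ω : Type} [Field k] [CharZero k] [Field K] [Field F] [Field E] [Field Ω]
  [Algebra k K] [Algebra k F] [Algebra F E] [Algebra K E] [Algebra E Ω] [Algebra k Ω]
  [Algebra K Ω] [Algebra F Ω] [IsScalarTower k K Ω] [IsScalarTower k F Ω] [IsScalarTower K E Ω]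
  [IsScalarTower F E Ω] [IsAlgClosed Ω] {W : ValuationSubring Ω}

/-- the field generated by `kbar` and `K` is finitely generated over `kbar` -/
theorem exists_fg (hK : (⊤ : IntermediateField k K).FG) :
    ∃ N : IntermediateField (algebraicClosure k Ω) Ω, Algebra.EssFiniteType (algebraicClosure k Ω) N ∧
      ∀ z ∈ IntermediateField.adjoin K (Set.range (inc K : algebraicClosure k Ω → _)),
        (z : Ω) ∈ N := by
  classical
  obtain ⟨S, hS⟩ := hK
  let N : IntermediateField (algebraicClosure k Ω) Ω :=
    IntermediateField.adjoin (algebraicClosure k Ω) (S.image (algebraMap K Ω) : Set Ω)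
  have hkN : ∀ b : k, algebraMap k Ω b ∈ N := by
    intro b
    have h1 : algebraMap k Ω b = algebraMap (algebraicClosure k Ω) Ω
      (algebraMap k (algebraicClosure k Ω) b) := IsScalarTower.algebraMap_apply _ _ _ _
    rw [h1]
    exact N.algebraMap_mem _
  have hKN : ∀ y : K, algebraMap K Ω y ∈ N := by
    intro y
    have hy : y ∈ IntermediateField.adjoin k (S : Set K) := by
      rw [hS]
      exact IntermediateField.mem_top
    refine IntermediateField.adjoin_induction (p := fun y _ => algebraMap K Ω y ∈ N) k
      ?_ ?_ ?_ ?_ ?_ hy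
    · intro x hx
      exact IntermediateField.subset_adjoin _ _ (by
        rw [Finset.coe_image]
        exact ⟨x, hx, rfl⟩)
    · intro b
      rw [← IsScalarTower.algebraMap_apply]
      exact hkN b
    · intro x y _ _ hx hy
      rw [map_add]
      exact add_mem hx hy
    · intro x _ hx
      rw [map_inv₀]
      exact inv_mem hx
    · intro x y _ _ hx hy
      rw [map_mul]
      exact mul_mem hx hy
  refine ⟨N, IntermediateField.essFiniteType_iff.2 ⟨_, rfl⟩, fun z hz => ?_⟩
  refine IntermediateField.adjoin_induction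
    (p := fun (z : algebraicClosure K Ω) _ => (z : Ω) ∈ N) K ?_ ?_ ?_ ?_ ?_ hz
  · rintro _ ⟨x, rfl⟩
    exact N.algebraMap_mem x
  · intro b
    exact hKN b
  · intro x y _ _ hx hy
    exact add_mem hx hy
  · intro x _ hx
    exact inv_mem hx
  · intro x y _ _ hx hy
    exact mul_mem hx hy

/-- `W` does not contain `F` -/
theorem not_le (hK : (⊤ : IntermediateField k K).FG)
    {F' : IntermediateField F Ω} [Algebra.IsAlgebraic F F'] {s' : GaloisSection K E Ω}
    {s : PartialSection k F Ω F'}
    (hle : IntermediateField.adjoin F (algebraicClosure k Ω : Set Ω) ≤ F')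
    (hinf : ¬ FiniteDimensional (IntermediateField.adjoin F (algebraicClosure k Ω : Set Ω))
      (IntermediateField.extendScalars hle))
    (hs : Lifts s' s) (hWc : ∀ z : algebraicClosure K Ω, (z : Ω) ∈ W)
    (hWr : ∀ a ∈ W, ∃ z : algebraicClosure K Ω, W.valuation (a - (z : Ω)) < 1)
    (hWs : ∀ g, ∀ x ∈ W, s'.hom g x ∈ W) : ∃ f : F, algebraMap F Ω f ∉ W := by
  have hch : CharZero K := charZero_of_injective_algebraMap (algebraMap k K).injective
  have hchF : CharZero F := charZero_of_injective_algebraMap (algebraMap k F).injective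
  by_contra hcon
  push Not at hcon
  have hF' : ∀ x : F', (x : Ω) ∈ W := fun x =>
    mem_of_integral hcon ((Algebra.IsIntegral.isIntegral x).map F'.val)
  obtain ⟨c, hc⟩ := exists_res (N := algebraicClosure K Ω) hWc hWr
  obtain ⟨N, hN, hKN⟩ := exists_fg (k := k) (K := K) (Ω := Ω) hK
  set L := IntermediateField.adjoin K (Set.range (inc K : algebraicClosure k Ω → _)) with hL
  set Fk := IntermediateField.adjoin F (algebraicClosure k Ω : Set Ω) with hFk
  have hcL : ∀ x : F', c ⟨x, hF' x⟩ ∈ L := by
    intro x
    refine res_fixed hch hWs hc _ _ fun g hg => ?_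
    have h1 := hs g 1 (fun y z hyz => ?_) x
    · rw [map_one] at h1
      exact h1
    · have h2 : z = inc K y := Subtype.ext hyz
      rw [h2, (IntermediateField.mem_fixingSubgroup_iff _ _).1 hg _
        (IntermediateField.subset_adjoin _ _ ⟨y, rfl⟩)]
      rfl
  -- the residue map on `F'` with values in `N`
  let c0 : F' →+* W := (algebraMap F' Ω).codRestrict W hF'
  let c1 : F' →+* N := ((algebraMap (algebraicClosure K Ω) Ω).comp (c.comp c0)).codRestrict N
    (fun x => hKN _ (hcL x))
  have hck : ∀ (x : F') (z : algebraicClosure k Ω), (x : Ω) = z → ((c1 x : N) : Ω) = z := by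
    intro x z hxz
    have h1 : c ⟨x, hF' x⟩ = inc K z := by
      rw [hc]
      change W.valuation ((x : Ω) - (z : Ω)) < 1
      rw [hxz, sub_self, map_zero]
      exact zero_lt_one
    exact congrArg (algebraMap (algebraicClosure K Ω) Ω) h1
  let iF : Fk →+* F' := (IntermediateField.inclusion hle : Fk →ₐ[F] F')
  let ik : algebraicClosure k Ω →+* Fk := (algebraMap (algebraicClosure k Ω) Ω).codRestrict Fk
    (fun x => IntermediateField.subset_adjoin _ _ x.2)
  let _ : Algebra (algebraicClosure k Ω) Fk := ik.toAlgebra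
  let _ : Algebra Fk N := (c1.comp iF).toAlgebra
  let _ : Algebra Fk F' := iF.toAlgebra
  have tow : IsScalarTower (algebraicClosure k Ω) Fk N := IsScalarTower.of_algebraMap_eq fun z => by
    apply Subtype.ext
    exact (hck _ z rfl).symm
  have hess : Algebra.EssFiniteType Fk N := Algebra.EssFiniteType.of_comp (algebraicClosure k Ω) Fk N
  have hchFk : CharZero Fk := charZero_of_injective_algebraMap (algebraMap F Fk).injective
  obtain ⟨D, hD⟩ := degree_bound hess
  let c2 : F' →ₐ[Fk] N := { c1 with commutes' := fun _ => rfl }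
  have halg : ∀ x : Ω, x ∈ F' → IsAlgebraic Fk x := by
    intro x hx
    have h1 : IsAlgebraic F (⟨x, hx⟩ : F') := Algebra.IsAlgebraic.isAlgebraic _
    exact (h1.algHom F'.val).tower_top Fk
  apply hinf
  have halg2 : Algebra.IsAlgebraic Fk (IntermediateField.extendScalars hle) :=
    ⟨fun x => (isAlgebraic_algHom_iff (IntermediateField.val _) Subtype.val_injective).1
      (halg (x : Ω) x.2)⟩
  refine finite_of_bounded D fun x => ?_
  let x' : F' := ⟨(x : Ω), x.2⟩
  let v1 : F' →ₐ[Fk] Ω := { algebraMap F' Ω with commutes' := fun _ => rfl }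
  have e1 : minpoly Fk (x : Ω) = minpoly Fk x :=
    minpoly.algHom_eq (IntermediateField.val _) Subtype.val_injective x
  have e2 : minpoly Fk (x : Ω) = minpoly Fk x' :=
    minpoly.algHom_eq v1 Subtype.val_injective x'
  have e3 : minpoly Fk (c2 x') = minpoly Fk x' := minpoly.algHom_eq c2 c2.toRingHom.injective x'
  rw [← e1, e2, ← e3]
  apply hD
  have h2 : IsAlgebraic Fk x' := (isAlgebraic_algHom_iff v1 Subtype.val_injective).1
    (halg (x : Ω) x.2)
  exact h2.algHom c2

end

end Pool.Agent.Helper88.BL
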