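import Pool.Agent.Helper88.BL.Wval
import Pool.Agent.Helper88.BL.Main2

/-!
# Sections which lift to birational sections over a function field (not a result)
-/

set_option autoImplicit false
set_option linter.unusedSectionVars false

open Polynomial

namespace Pool.Agent.Helper88.BL

open Pool.Agent.Helper88.FT.Final Pool.Agent.Helper39.FX

/-- Sections which lift, over some function field `K`, to birational sections arise from rational
points. -/
theorem final (hCRV : S_CRV) (hALL : S_ALLC) {k K F E Ω : Type} [Field k] [CharZero k] [Field K]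
    [CharZero K] [Field F] [Field E] [Field Ω] [Algebra k K] [Algebra k F] [Algebra F E] [Algebra K E]
    [Algebra E Ω] [Algebra k Ω] [Algebra K Ω] [Algebra F Ω] [IsScalarTower k K Ω]
    [IsScalarTower k F Ω] [IsScalarTower K E Ω] [IsScalarTower F E Ω] [IsAlgClosure E Ω]
    (hk : (⊤ : IntermediateField ℚ k).FG) (hK : (⊤ : IntermediateField k K).FG)
    (hK1 : ∃ x : K, Transcendental ℚ x)
    (hkK : ∀ x : K, IsAlgebraic k x → x ∈ (algebraMap k K).range)
    (hF : ∃ t : F, Transcendental k t ∧ Algebra.IsAlgebraic (IntermediateField.adjoin k {t}) F)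
    (hE : ∃ t : E, Transcendental K t ∧ Algebra.IsAlgebraic (IntermediateField.adjoin K {t}) E)
    (F' : IntermediateField F Ω) [Algebra.IsAlgebraic F F']
    (hle : IntermediateField.adjoin F (algebraicClosure k Ω : Set Ω) ≤ F')
    (hinf : ¬ FiniteDimensional (IntermediateField.adjoin F (algebraicClosure k Ω : Set Ω))
      (IntermediateField.extendScalars hle))
    (s : PartialSection k F Ω F') (s' : GaloisSection K E Ω) (hs : Lifts s' s) :
    ∃ O : ValuationSubring F, s.ArisesFrom O := by
  have hΩ : IsAlgClosed Ω := IsAlgClosure.isAlgClosed E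
  have hk' : Algebra.EssFiniteType ℚ k := IntermediateField.fg_top_iff.1 hk
  have hK' : Algebra.EssFiniteType k K := IntermediateField.fg_top_iff.1 hK
  have hess : Algebra.EssFiniteType ℚ K := Algebra.EssFiniteType.comp ℚ k K
  obtain ⟨W, -, hWc, hWr, hWs⟩ := exists_W hCRV hALL K hK1 hE s'
  obtain ⟨f, hf⟩ := not_le hK hle hinf hs hWc hWr hWs
  exact ⟨_, arises_of_not_le hkK hF hs hWc hWr hWs f hf⟩

end Pool.Agent.Helper88.BL
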