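import Pool.Agent.Helper88.BL.Ext
import Pool.Graph.R_seed8.TH954.SFinV

/-!
# The residue map of a valuation ring over an algebraically closed field (not a result)
-/

set_option autoImplicit false
set_option linter.unusedSectionVars false

open Polynomial

namespace Pool.Agent.Helper88.BL

/-- an algebraic extension with bounded degrees of elements is finite -/
theorem finite_of_bounded {A L : Type} [Field A] [CharZero A] [Field L] [Algebra A L]
    [Algebra.IsAlgebraic A L] (D : ℕ) (h : ∀ x : L, (minpoly A x).natDegree ≤ D) :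
    FiniteDimensional A L := by
  classical
  obtain ⟨x, hx⟩ : ∃ x : L, ∀ y : L, (minpoly A y).natDegree ≤ (minpoly A x).natDegree := by
    have h1 : ∃ n, ∃ x : L, (minpoly A x).natDegree = n := ⟨_, 0, rfl⟩
    have h2 : (Nat.findGreatest (fun n => ∃ x : L, (minpoly A x).natDegree = n) D) ≤ D :=
      Nat.findGreatest_le D
    obtain ⟨x, hx⟩ : ∃ x : L, (minpoly A x).natDegree =
        Nat.findGreatest (fun n => ∃ x : L, (minpoly A x).natDegree = n) D := by
      exact Nat.findGreatest_spec (P := fun n => ∃ x : L, (minpoly A x).natDegree = n)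
        (h (0 : L)) ⟨0, rfl⟩
    refine ⟨x, fun y => ?_⟩
    rw [hx]
    exact Nat.le_findGreatest (h y) ⟨y, rfl⟩
  have hi : ∀ y : L, IsIntegral A y := fun y => (Algebra.IsAlgebraic.isAlgebraic y).isIntegral
  have htop : IntermediateField.adjoin A {x} = ⊤ := by
    rw [eq_top_iff]
    intro y _
    have hfin : FiniteDimensional A (IntermediateField.adjoin A {x, y}) :=
      IntermediateField.finiteDimensional_adjoin (fun z _ => hi z)
    obtain ⟨z, hz⟩ := Field.exists_primitive_element A (IntermediateField.adjoin A {x, y})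
    have hle : IntermediateField.adjoin A {x} ≤ IntermediateField.adjoin A {x, y} :=
      IntermediateField.adjoin.mono _ _ _ (by simp)
    have h1 : Module.finrank A (IntermediateField.adjoin A {x, y}) ≤
        Module.finrank A (IntermediateField.adjoin A {x}) := by
      rw [IntermediateField.adjoin.finrank (hi x)]
      have h2 : Module.finrank A (IntermediateField.adjoin A {x, y}) =
          (minpoly A z).natDegree := by
        rw [← IntermediateField.adjoin.finrank (Algebra.IsIntegral.isIntegral z), hz,
          IntermediateField.finrank_top']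
      rw [h2]
      have h3 : minpoly A (z : L) = minpoly A z :=
        minpoly.algHom_eq (IntermediateField.val _) Subtype.val_injective z
      rw [← h3]
      exact hx _
    have h4 := IntermediateField.eq_of_le_of_finrank_le hle h1
    rw [h4]
    exact IntermediateField.subset_adjoin _ _ (by simp)
  have h1 : FiniteDimensional A (IntermediateField.adjoin A {x}) :=
    IntermediateField.adjoin.finiteDimensional (hi x)
  rw [htop] at h1
  exact (IntermediateField.topEquiv (F := A) (E := L)).toLinearEquiv.finiteDimensional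

/-- valuation rings are integrally closed -/
theorem mem_of_integral {B Ω : Type} [Field B] [Field Ω] [Algebra B Ω] {W : ValuationSubring Ω}
    (hW : ∀ c : B, algebraMap B Ω c ∈ W) {x : Ω} (hx : IsIntegral B x) : x ∈ W := by
  have h3 : IsIntegral W x := by
    obtain ⟨p, hp, hp'⟩ := hx
    refine ⟨p.map ((algebraMap B Ω).codRestrict W hW), hp.map _, ?_⟩
    rw [Polynomial.eval₂_map]
    exact hp'
  obtain ⟨y, hy⟩ := IsIntegrallyClosed.isIntegral_iff.1 h3
  rw [← hy]
  exact y.2

section

variable {N Ω : Type} [Field N] [Field Ω] [Algebra N Ω] {W : ValuationSubring Ω}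

theorem val_eq_zero (hWc : ∀ z : N, algebraMap N Ω z ∈ W) {z : N}
    (h : W.valuation (algebraMap N Ω z) < 1) : z = 0 := by
  by_contra h0
  rcases (ValuationSubring.mem_nonunits_iff_or _).1 h with h1 | h1
  · exact h0 ((map_eq_zero _).1 h1)
  · apply h1
    rw [← map_inv₀]
    exact hWc _

/-- the residue map -/
theorem exists_res (hWc : ∀ z : N, algebraMap N Ω z ∈ W)
    (hWr : ∀ a ∈ W, ∃ z : N, W.valuation (a - algebraMap N Ω z) < 1) :
    ∃ c : W →+* N, ∀ (a : W) (z : N), c a = z ↔ W.valuation ((a : Ω) - algebraMap N Ω z) < 1 := by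
  let j : N →+* W := (algebraMap N Ω).codRestrict W hWc
  let ρ : N →+* IsLocalRing.ResidueField W := (IsLocalRing.residue W).comp j
  have hρ : ∀ (a : W) (z : N), IsLocalRing.residue W a = ρ z ↔
      W.valuation ((a : Ω) - algebraMap N Ω z) < 1 := by
    intro a z
    change IsLocalRing.residue W a = IsLocalRing.residue W (j z) ↔ _
    rw [← sub_eq_zero, ← map_sub, IsLocalRing.residue_eq_zero_iff,
      ValuationSubring.valuation_lt_one_iff]
    rfl
  have hbij : Function.Bijective ρ := by
    refine ⟨ρ.injective, fun y => ?_⟩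
    obtain ⟨a, rfl⟩ := IsLocalRing.residue_surjective y
    obtain ⟨z, hz⟩ := hWr a a.2
    exact ⟨z, ((hρ a z).2 hz).symm⟩
  let e := RingEquiv.ofBijective ρ hbij
  refine ⟨(e.symm : IsLocalRing.ResidueField W →+* N).comp (IsLocalRing.residue W), ?_⟩
  intro a z
  rw [← hρ]
  change e.symm (IsLocalRing.residue W a) = z ↔ IsLocalRing.residue W a = e z
  rw [RingEquiv.symm_apply_eq]

theorem inv_mem_of_res {c : W →+* N}
    (hc : ∀ (a : W) (z : N), c a = z ↔ W.valuation ((a : Ω) - algebraMap N Ω z) < 1)
    {a : W} (ha : c a ≠ 0) : (a : Ω)⁻¹ ∈ W := by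
  by_contra h
  apply ha
  rw [hc, map_zero, sub_zero]
  exact (ValuationSubring.mem_nonunits_iff_or _).2 (Or.inr h)

end

section

variable {k F N Ω : Type} [Field k] [Field F] [Field N] [Field Ω] [Algebra k F]
  [Algebra F Ω]
  [Algebra N Ω] [Algebra k N] [Algebra k Ω] [IsScalarTower k F Ω] [IsScalarTower k N Ω]
  {W : ValuationSubring Ω}

/-- if the residue of an element of `F` is transcendental then `F` is in the valuation ring -/
theorem le_of_transcendental
    (hF : ∃ t : F, Transcendental k t ∧ Algebra.IsAlgebraic (IntermediateField.adjoin k {t}) F)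
    (hWc : ∀ z : N, algebraMap N Ω z ∈ W) {c : W →+* N}
    (hc : ∀ (a : W) (z : N), c a = z ↔ W.valuation ((a : Ω) - algebraMap N Ω z) < 1)
    (a : F) (ha : algebraMap F Ω a ∈ W) (htr : Transcendental k (c ⟨_, ha⟩)) (f : F) :
    algebraMap F Ω f ∈ W := by
  have hkW : ∀ b : k, algebraMap k Ω b ∈ W := by
    intro b
    rw [IsScalarTower.algebraMap_apply k N Ω]
    exact hWc _
  let φ : k →+* W := (algebraMap k Ω).codRestrict W hkW
  have hφ : c.comp φ = algebraMap k N := by
    ext b
    change c (φ b) = _
    rw [hc, ← IsScalarTower.algebraMap_apply k N Ω]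
    change W.valuation (algebraMap k Ω b - algebraMap k Ω b) < 1
    rw [sub_self, map_zero]
    exact zero_lt_one
  have hev : ∀ p : k[X], ((eval₂ φ ⟨_, ha⟩ p : W) : Ω) = algebraMap F Ω (aeval a p) := by
    intro p
    have h1 : ((eval₂ φ ⟨_, ha⟩ p : W) : Ω) = (algebraMap W Ω) (eval₂ φ ⟨_, ha⟩ p) := rfl
    rw [h1, hom_eval₂, aeval_def, hom_eval₂, ← IsScalarTower.algebraMap_eq k F Ω]
    rfl
  have hcev : ∀ p : k[X], c (eval₂ φ ⟨_, ha⟩ p) = aeval (c ⟨_, ha⟩) p := by
    intro p
    rw [hom_eval₂, hφ, aeval_def]
  have hmem : ∀ p : k[X], algebraMap F Ω (aeval a p) ∈ W := by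
    intro p
    rw [← hev]
    exact (eval₂ φ ⟨_, ha⟩ p : W).2
  have hinv : ∀ p : k[X], (algebraMap F Ω (aeval a p))⁻¹ ∈ W := by
    intro p
    by_cases hp : p = 0
    · rw [hp, map_zero, map_zero, inv_zero]
      exact zero_mem _
    · rw [← hev]
      apply inv_mem_of_res hc
      rw [hcev]
      exact fun h => hp ((transcendental_iff.1 htr) p h)
  have hat : Transcendental k a := by
    rw [transcendental_iff]
    intro p hp
    refine (transcendental_iff.1 htr) p ?_
    rw [← hcev]
    have h1 : eval₂ φ ⟨_, ha⟩ p = (0 : W) := by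
      apply Subtype.ext
      rw [hev, hp, map_zero]
      rfl
    rw [h1, map_zero]
  have hB : ∀ b : IntermediateField.adjoin k {a},
      algebraMap (IntermediateField.adjoin k {a}) Ω b ∈ W := by
    intro b
    obtain ⟨r, s, hrs⟩ := (IntermediateField.mem_adjoin_simple_iff k (b : F)).1 b.2
    have h1 : algebraMap (IntermediateField.adjoin k {a}) Ω b = algebraMap F Ω (b : F) := rfl
    rw [h1, hrs, map_div₀, div_eq_mul_inv]
    exact mul_mem (hmem r) (hinv s)
  have halg := Pool.Agent.TH954.alg_adjoin_of_dim (M := F) hF a hat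
  have hint : IsIntegral (IntermediateField.adjoin k {a}) f := by
    obtain ⟨p, hp0, hp⟩ := halg.isAlgebraic f
    let i : Algebra.adjoin k {a} →+* IntermediateField.adjoin k {a} :=
      (Subalgebra.inclusion (IntermediateField.algebra_adjoin_le_adjoin k {a})).toRingHom
    have hi : Function.Injective i := Subalgebra.inclusion_injective _
    have h1 : IsAlgebraic (IntermediateField.adjoin k {a}) f := by
      refine ⟨p.map i, (Polynomial.map_ne_zero_iff hi).2 hp0, ?_⟩
      rw [aeval_def, eval₂_map]
      exact hp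
    exact h1.isIntegral
  have hint2 : IsIntegral (IntermediateField.adjoin k {a}) (algebraMap F Ω f) :=
    hint.map (IsScalarTower.toAlgHom (IntermediateField.adjoin k {a}) F Ω)
  exact mem_of_integral hB hint2

end

end Pool.Agent.Helper88.BL
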