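import Pool.Agent.Helper88.BL.Defs
import Pool.Agent.Helper88.BL.Res

/-!
# From a stable valuation ring over `K` to a stable valuation ring over `k` (not a result)
-/

set_option autoImplicit false
set_option linter.unusedSectionVars false

open Polynomial

namespace Pool.Agent.Helper88.BL

open Pool.Agent.Helper88.FT.Final

section

variable {k K F E Ω : Type} [Field k] [CharZero k] [Field K] [Field F] [Field E] [Field Ω]
  [Algebra k K] [Algebra k F] [Algebra F E] [Algebra K E] [Algebra E Ω] [Algebra k Ω]
  [Algebra K Ω] [Algebra F Ω] [IsScalarTower k K Ω] [IsScalarTower k F Ω] [IsScalarTower K E Ω]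
  [IsScalarTower F E Ω] [IsAlgClosed Ω] {W : ValuationSubring Ω}

/-- the maximal ideal is stable -/
theorem val_lt_one_stable {s' : GaloisSection K E Ω} (hWs : ∀ g, ∀ x ∈ W, s'.hom g x ∈ W)
    (g : algebraicClosure K Ω ≃ₐ[K] algebraicClosure K Ω) {x : Ω} (hx : W.valuation x < 1) :
    W.valuation (s'.hom g x) < 1 := by
  refine (ValuationSubring.mem_nonunits_iff_or _).2 ?_
  rcases (ValuationSubring.mem_nonunits_iff_or _).1 hx with h | h
  · left
    rw [h, map_zero]
  · right
    intro h3
    apply h
    have h4 := hWs g⁻¹ _ h3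
    rw [map_inv₀] at h4
    have h5 : s'.hom g⁻¹ (s'.hom g x) = x := by
      change (s'.hom g⁻¹ * s'.hom g) x = x
      rw [← map_mul, inv_mul_cancel, map_one]
      rfl
    rwa [h5] at h4

/-- the residue map is equivariant -/
theorem res_equiv {s' : GaloisSection K E Ω} (hWs : ∀ g, ∀ x ∈ W, s'.hom g x ∈ W)
    {c : W →+* algebraicClosure K Ω}
    (hc : ∀ (a : W) (z : algebraicClosure K Ω), c a = z ↔
      W.valuation ((a : Ω) - algebraMap (algebraicClosure K Ω) Ω z) < 1)
    (g : algebraicClosure K Ω ≃ₐ[K] algebraicClosure K Ω) (a : W) :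
    c ⟨s'.hom g a, hWs g a a.2⟩ = g (c a) := by
  rw [hc]
  have h1 := val_lt_one_stable hWs g ((hc a (c a)).1 rfl)
  rw [map_sub] at h1
  have h2 : s'.hom g (algebraMap (algebraicClosure K Ω) Ω (c a)) =
      algebraMap (algebraicClosure K Ω) Ω (g (c a)) := s'.sec g (c a)
  rw [h2] at h1
  exact h1

/-- residues of elements with a trivial action are in the base field -/
theorem res_fixed (hch : CharZero K) {s' : GaloisSection K E Ω}
    (hWs : ∀ g, ∀ x ∈ W, s'.hom g x ∈ W) {c : W →+* algebraicClosure K Ω}
    (hc : ∀ (a : W) (z : algebraicClosure K Ω), c a = z ↔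
      W.valuation ((a : Ω) - algebraMap (algebraicClosure K Ω) Ω z) < 1)
    (L : IntermediateField K (algebraicClosure K Ω)) (a : W)
    (ha : ∀ g ∈ L.fixingSubgroup, s'.hom g (a : Ω) = a) : c a ∈ L := by
  have hcl : IsAlgClosure K (algebraicClosure K Ω) := inferInstance
  have hgal : IsGalois K (algebraicClosure K Ω) := IsAlgClosure.isGalois K _
  rw [← InfiniteGalois.fixedField_fixingSubgroup L, IntermediateField.mem_fixedField_iff]
  intro g hg
  rw [← res_equiv hWs hc g a]
  congr 1
  exact Subtype.ext (ha g hg)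

/-- the case in which `W` does not contain `F` -/
theorem arises_of_not_le
    (hkK : ∀ x : K, IsAlgebraic k x → x ∈ (algebraMap k K).range)
    (hF : ∃ t : F, Transcendental k t ∧ Algebra.IsAlgebraic (IntermediateField.adjoin k {t}) F)
    {F' : IntermediateField F Ω} {s' : GaloisSection K E Ω} {s : PartialSection k F Ω F'}
    (hs : Lifts s' s) (hWc : ∀ z : algebraicClosure K Ω, (z : Ω) ∈ W)
    (hWr : ∀ a ∈ W, ∃ z : algebraicClosure K Ω, W.valuation (a - (z : Ω)) < 1)
    (hWs : ∀ g, ∀ x ∈ W, s'.hom g x ∈ W)
    (f : F) (hf : algebraMap F Ω f ∉ W) :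
    s.ArisesFrom (W.comap (algebraMap F Ω)) := by
  have hch : CharZero K := charZero_of_injective_algebraMap (algebraMap k K).injective
  have hkW : ∀ b : k, algebraMap k Ω b ∈ W := by
    intro b
    rw [IsScalarTower.algebraMap_apply k K Ω]
    exact hWc (algebraMap K (algebraicClosure K Ω) (algebraMap k K b))
  obtain ⟨c, hc⟩ := exists_res (N := algebraicClosure K Ω) hWc hWr
  have towk : IsScalarTower k (algebraicClosure K Ω) Ω :=
    IsScalarTower.of_algebraMap_eq fun _ => rfl
  have towkK : IsScalarTower k K (algebraicClosure K Ω) :=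
    IsScalarTower.of_algebraMap_eq fun b => by
      apply (algebraMap (algebraicClosure K Ω) Ω).injective
      rw [← IsScalarTower.algebraMap_apply k (algebraicClosure K Ω) Ω,
        ← IsScalarTower.algebraMap_apply K (algebraicClosure K Ω) Ω,
        ← IsScalarTower.algebraMap_apply k K Ω]
  refine ⟨?_, ?_, ?_, W.comap (algebraMap F' Ω), ?_, ?_⟩
  · intro htop
    apply hf
    have h1 : f ∈ W.comap (algebraMap F Ω) := by
      rw [htop]
      exact ValuationSubring.mem_top _
    exact h1
  · intro b
    rw [ValuationSubring.mem_comap, ← IsScalarTower.algebraMap_apply]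
    exact hkW b
  · intro a ha
    rw [ValuationSubring.mem_comap] at ha
    have h1 : c ⟨_, ha⟩ ∈ (⊥ : IntermediateField K (algebraicClosure K Ω)) := by
      refine res_fixed hch hWs hc _ _ fun g _ => ?_
      change s'.hom g (algebraMap F Ω a) = algebraMap F Ω a
      rw [IsScalarTower.algebraMap_apply F E Ω]
      exact (s'.hom g).commutes _
    obtain ⟨y, hy⟩ := IntermediateField.mem_bot.1 h1
    have hyalg : IsAlgebraic k y := by
      by_contra htr
      apply hf
      refine le_of_transcendental hF hWc hc a ha ?_ f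
      rw [← hy]
      intro h
      exact htr ((isAlgebraic_algebraMap_iff (algebraMap K (algebraicClosure K Ω)).injective).1 h)
    obtain ⟨b, rfl⟩ := hkK y hyalg
    refine ⟨b, ?_⟩
    have h2 := (hc ⟨_, ha⟩ _).1 hy.symm
    rw [← IsScalarTower.algebraMap_apply K (algebraicClosure K Ω) Ω,
      ← IsScalarTower.algebraMap_apply k K Ω, IsScalarTower.algebraMap_apply k F Ω] at h2
    change W.valuation (algebraMap F Ω a - _) < 1 at h2
    rw [← map_sub] at h2
    refine (ValuationSubring.mem_nonunits_iff_or _).2 ?_
    rcases (ValuationSubring.mem_nonunits_iff_or _).1 h2 with h | h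
    · exact Or.inl ((map_eq_zero _).1 h)
    · right
      intro h3
      apply h
      have h4 := ValuationSubring.mem_comap.1 h3
      rwa [map_inv₀] at h4
  · ext x
    rw [ValuationSubring.mem_comap, ValuationSubring.mem_comap, ValuationSubring.mem_comap]
    rfl
  · have key : ∀ (g : algebraicClosure k Ω ≃ₐ[k] algebraicClosure k Ω) (x : F'),
        (x : Ω) ∈ W → ((s.hom g x : F') : Ω) ∈ W := by
      intro g x hx
      obtain ⟨h, hh⟩ := exists_ext (K := K) hkK g
      rw [← hs h g (fun x y hxy => ?_) x]
      · exact hWs h _ hx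
      · have h1 : y = inc K x := Subtype.ext hxy
        rw [h1, hh]
        rfl
    intro g x
    rw [ValuationSubring.mem_comap, ValuationSubring.mem_comap]
    refine ⟨fun h => ?_, fun h => key g x h⟩
    have h1 := key g⁻¹ _ h
    have h2 : s.hom g⁻¹ (s.hom g x) = x := by
      change (s.hom g⁻¹ * s.hom g) x = x
      rw [← map_mul, inv_mul_cancel, map_one]
      rfl
    rw [h2] at h1
    exact h1

end

end Pool.Agent.Helper88.BL
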