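import Pool.Agent.Helper88.FX.Final

/-!
# The stable valuation ring of a birational section (not a result)
-/

set_option autoImplicit false
set_option linter.unusedSectionVars false

open Polynomial IsDedekindDomain NumberField

namespace Pool.Agent.Helper88.BL

open Pool.Agent.TH954 Pool.Agent.Y791.BS Pool.Agent.Y791.BF Pool.Agent.Y791.BC
  Pool.Agent.Y791.BC.Leg Pool.Agent.Helper39.FX Pool.Agent.Helper88.FX.Fin
  Pool.Agent.Helper88.FT.Final

/-- all sections -/
theorem exists_goodW (hALL : S_ALLC) (hObs : S_ObsFG)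
    {k : Type} [Field k] [CharZero k]
    {F Ω B : Type} [Field F] [Field Ω] [Field B] [Algebra k F] [Algebra F Ω]
    [Algebra k Ω] [Algebra k B] [IsScalarTower k F Ω]
    [IsAlgClosure F Ω] [IsAlgClosure k B]
    (hF : ∃ t : F, Transcendental k t ∧
      Algebra.IsAlgebraic (IntermediateField.adjoin k {t}) F)
    (k' : IntermediateField k Ω) [FiniteDimensional k k']
    (k1 : Type) [Field k1] [CharZero k1] (hk1 : Algebra.EssFiniteType ℚ k1)
    (K : Type) [Field K] [CharZero K] (hK : Algebra.EssFiniteType ℚ K) (C : Crv K k1)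
    (ψ : k1 →+* Ω) (hψ : ψ.fieldRange = k'.toSubfield)
    (s : GalSection k F Ω B) :
    ∃ W : ValuationSubring Ω, GoodW (toSAct s) W := by
  have hΩ1 : IsAlgClosed Ω := IsAlgClosure.isAlgClosed F
  have hΩ2 : Algebra.IsAlgebraic F Ω := IsAlgClosure.isAlgebraic
  have hcF : CharZero F := charZero_of_injective_algebraMap (algebraMap k F).injective
  have hcΩ : CharZero Ω := charZero_of_injective_algebraMap (algebraMap F Ω).injective
  set A := toSAct s with hA
  obtain ⟨x, hxt, -⟩ := id hF
  have hloc : ∀ i : PlF k, s.GeometricOver i.Lv (AlgebraicClosure i.Lv) := fun i =>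
    Pool.Agent.N890.KO.koenigsmann i.L i.v k F Ω B s
  choose pl hpl using fun i : PlF k => toSAct_geo s (hloc i)
  obtain ⟨κ, μ, α, hκ, hα, hκψ⟩ := exists_lvl2 A.j k' ψ hψ
  have hx : ∀ τ, A.s τ (algebraMap F Ω x) = algebraMap F Ω x :=
    fun τ => (s.s ((eqv k B).autCongr τ)).commutes x
  have hxtΩ : Transcendental k (algebraMap F Ω x) := by
    intro h
    apply hxt
    exact (isAlgebraic_algHom_iff (IsScalarTower.toAlgHom k F Ω) (RingHom.injective _)).1 h
  have hxc : ∀ w : AlgebraicClosure k, algebraMap F Ω x ≠ A.j w := by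
    intro w hw
    apply hxtΩ
    rw [hw]
    exact (Algebra.IsAlgebraic.isAlgebraic (R := k) w).algHom A.j
  have hdim : ∀ x : Ω, (∀ w : AlgebraicClosure k, x ≠ A.j w) →
      ∀ t : Ω, IsAlgebraic (Algebra.adjoin k {x}) t := by
    intro x hx t
    refine (alg_adjoin_of_dim hF x (fun h => ?_)).isAlgebraic _
    obtain ⟨w, hw⟩ := alg_range A.j h
    exact hx w hw.symm
  exact all_good A pl hpl hdim hALL hObs k1 hk1 μ κ hκ α hα K hK C hx hxc

/-- a nontrivial valuation ring of `Ω` over the algebraic closure of `k`, with this residue field and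
stable under the section -/
theorem exists_W (hCRV : S_CRV) (hALL : S_ALLC) (k : Type) [Field k] [CharZero k]
    [Algebra.EssFiniteType ℚ k] (hk : ∃ x : k, Transcendental ℚ x)
    {F Ω : Type} [Field F] [Field Ω] [Algebra k F] [Algebra F Ω] [Algebra k Ω]
    [IsScalarTower k F Ω] [IsAlgClosure F Ω]
    (hF : ∃ t : F, Transcendental k t ∧ Algebra.IsAlgebraic (IntermediateField.adjoin k {t}) F)
    (s : GaloisSection k F Ω) :
    ∃ W : ValuationSubring Ω, W ≠ ⊤ ∧ (∀ z : algebraicClosure k Ω, (z : Ω) ∈ W) ∧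
      (∀ a ∈ W, ∃ z : algebraicClosure k Ω, W.valuation (a - (z : Ω)) < 1) ∧
      ∀ (g : algebraicClosure k Ω ≃ₐ[k] algebraicClosure k Ω), ∀ x ∈ W, s.hom g x ∈ W := by
  have hΩ1 : IsAlgClosed Ω := IsAlgClosure.isAlgClosed F
  have hcF : CharZero F := charZero_of_injective_algebraMap (algebraMap k F).injective
  have hcΩ : CharZero Ω := charZero_of_injective_algebraMap (algebraMap F Ω).injective
  have hE : S_EmbFG := EmbFG.main FrobRes.main
  have hess : Algebra.EssFiniteType ℚ k := inferInstance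
  obtain ⟨k1, _, _, _, K, _, _, hK, ⟨C⟩⟩ := hCRV k inferInstance hk
  have halg : Algebra.IsAlgebraic k k1 := Algebra.IsAlgebraic.of_finite k k1
  have hch : CharZero k1 := charZero_of_injective_algebraMap (algebraMap k k1).injective
  have hk1 : Algebra.EssFiniteType ℚ k1 := Algebra.EssFiniteType.comp ℚ k k1
  let ι : k1 →ₐ[k] Ω := IsAlgClosed.lift
  have hfin : FiniteDimensional k ι.fieldRange :=
    (AlgEquiv.ofInjectiveField ι).toLinearEquiv.finiteDimensional
  obtain ⟨W, hW⟩ := exists_goodW hALL (ObsFG.main FrobRes.main hE) hF ι.fieldRange k1 hk1 K hK C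
    (ι : k1 →+* Ω) rfl (toGal s)
  set A := toSAct (toGal s) with hA
  have hstab : ∀ τ, ∀ x ∈ W, A.s τ x ∈ W := Desc.main hE k hess Ω A W hW
  refine ⟨W, hW.ne, fun z => ?_, fun a ha => ?_, fun g x hx => ?_⟩
  · obtain ⟨w, hw⟩ := alg_range A.j (mem_algebraicClosure_iff.1 z.2)
    rw [← hw]
    exact hW.cst w
  · obtain ⟨w, hw⟩ := hW.res a ha
    exact ⟨⟨A.j w, mem_algebraicClosure_iff.2
      ((Algebra.IsAlgebraic.isAlgebraic (R := k) w).algHom A.j)⟩, hw⟩
  · have h := hstab ((eqv k (algebraicClosure k Ω)).autCongr.symm g) x hx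
    rw [hA, toSAct_s] at h
    exact h

end Pool.Agent.Helper88.BL
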